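import Mathlib

set_option autoImplicit false

namespace Pool.Agent.MPf322fd

open Polynomial IsLocalRing

/-! ### the number `θ = 3^(1/3)` -/

lemma exists_theta : ∃ z : ℂ, z ^ 3 = 3 := IsAlgClosed.exists_pow_nat_eq (3 : ℂ) (by norm_num)

noncomputable def θ : ℂ := exists_theta.choose

lemma theta_cube : θ ^ 3 = 3 := exists_theta.choose_spec

lemma theta_ne : θ ≠ 0 := by
  intro h
  have := theta_cube
  rw [h] at this
  norm_num at this

lemma rat_cube (b : ℚ) : b ^ 3 ≠ 3 := by
  intro h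
  have hb : b ≠ 0 := by
    rintro rfl
    norm_num at h
  haveI : Fact (Nat.Prime 3) := ⟨Nat.prime_three⟩
  have h1 := congrArg (padicValRat 3) h
  rw [padicValRat.pow] at h1
  have h2 : padicValRat 3 (3 : ℚ) = 1 := by
    have := padicValRat.self (p := 3) (by norm_num)
    exact_mod_cast this
  rw [h2] at h1
  push_cast at h1
  omega

lemma irr : Irreducible (X ^ 3 - C (3 : ℚ)) :=
  X_pow_sub_C_irreducible_of_prime Nat.prime_three rat_cube

lemma dvd_of_root (h : ℤ[X]) (hh : aeval θ h = 0) : (X ^ 3 - C (3 : ℤ)) ∣ h := by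
  have hm : (X ^ 3 - C (3 : ℤ)).Monic := monic_X_pow_sub_C 3 (by norm_num)
  rw [← map_dvd_map (Int.castRingHom ℚ) (Int.cast_injective) hm]
  have e1 : (X ^ 3 - C (3 : ℤ)).map (Int.castRingHom ℚ) = X ^ 3 - C (3 : ℚ) := by
    rw [Polynomial.map_sub, Polynomial.map_pow, Polynomial.map_X, Polynomial.map_C]
    rfl
  rw [e1]
  have hmin : minpoly ℚ θ = X ^ 3 - C (3 : ℚ) := by
    symm
    apply minpoly.eq_of_irreducible_of_monic irr
    · simp [theta_cube]
    · exact monic_X_pow_sub_C 3 (by norm_num)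
  rw [← hmin]
  apply minpoly.dvd
  have e2 : aeval θ (h.map (algebraMap ℤ ℚ)) = aeval θ h := aeval_map_algebraMap ℚ θ h
  rw [← hh, ← e2]
  rfl

lemma coeff_dvd (h : ℤ[X]) (hh : aeval θ h = 0) :
    (3 : ℤ) ∣ h.coeff 0 ∧ (3 : ℤ) ∣ h.coeff 1 := by
  obtain ⟨q, rfl⟩ := dvd_of_root h hh
  have e : (X ^ 3 - C (3 : ℤ)) * q = X ^ 3 * q - C 3 * q := by ring
  constructor
  · refine ⟨- q.coeff 0, ?_⟩
    rw [e, coeff_sub, coeff_C_mul]
    have : (X ^ 3 * q).coeff 0 = 0 := by
      rw [mul_coeff_zero]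
      simp
    rw [this]
    ring
  · refine ⟨- q.coeff 1, ?_⟩
    rw [e, coeff_sub, coeff_C_mul]
    have : (X ^ 3 * q).coeff 1 = 0 := by
      rw [coeff_X_pow_mul']
      simp
    rw [this]
    ring

/-- substitution `X ↦ -X²` -/
noncomputable def sb (f : ℤ[X]) : ℤ[X] := expand ℤ 2 (f.comp (-X))

lemma sb_aeval (f : ℤ[X]) : aeval θ (sb f) = aeval (-θ ^ 2) f := by
  unfold sb
  rw [expand_aeval, aeval_comp]
  simp

lemma sb_coeff_zero (f : ℤ[X]) : (sb f).coeff 0 = f.coeff 0 := by
  unfold sb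
  rw [coeff_expand (by norm_num)]
  simp [coeff_zero_eq_eval_zero, eval_comp]

lemma sb_coeff_one (f : ℤ[X]) : (sb f).coeff 1 = 0 := by
  unfold sb
  rw [coeff_expand (by norm_num)]
  simp

/-! ### the prime `P = (3, X)` of `ℤ[X]` and the ring `A` -/

instance : Fact (Nat.Prime 3) := ⟨Nat.prime_three⟩

noncomputable def red : ℤ[X] →+* ZMod 3 :=
  (Int.castRingHom (ZMod 3)).comp (constantCoeff (R := ℤ))

lemma red_apply (f : ℤ[X]) : red f = ((f.coeff 0 : ℤ) : ZMod 3) := rfl

noncomputable def P : Ideal ℤ[X] := RingHom.ker red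

instance : P.IsPrime := RingHom.ker_isPrime red

lemma mem_P (f : ℤ[X]) : f ∈ P ↔ (3 : ℤ) ∣ f.coeff 0 := by
  unfold P
  rw [RingHom.mem_ker, red_apply, ZMod.intCast_zmod_eq_zero_iff_dvd]
  rfl

lemma P_eq : P = Ideal.span {C (3 : ℤ), X} := by
  apply le_antisymm
  · intro f hf
    obtain ⟨c, hc⟩ := (mem_P f).1 hf
    rw [← X_mul_divX_add f, hc]
    refine Ideal.add_mem _ (Ideal.mul_mem_right _ _ (Ideal.subset_span (by simp))) ?_
    rw [C_mul]
    exact Ideal.mul_mem_right _ _ (Ideal.subset_span (by simp))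
  · rw [Ideal.span_le]
    rintro x (rfl | rfl)
    · exact (mem_P _).2 (by simp)
    · exact (mem_P _).2 (by simp)

abbrev A : Type := Localization.AtPrime P

noncomputable def ev : ℤ[X] →+* ℂ := (aeval (-θ ^ 2) : ℤ[X] →ₐ[ℤ] ℂ).toRingHom

lemma ev_apply (f : ℤ[X]) : ev f = aeval (-θ ^ 2) f := rfl

lemma ev_ne (f : ℤ[X]) (hf : f ∉ P) : ev f ≠ 0 := by
  intro h
  apply hf
  rw [mem_P, ← sb_coeff_zero]
  exact (coeff_dvd (sb f) (by rw [sb_aeval]; exact h)).1

/-- the map `A → ℂ`, `X ↦ -θ²` -/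
noncomputable def τ : A →+* ℂ :=
  IsLocalization.lift (M := P.primeCompl) (g := ev)
    (fun y => isUnit_iff_ne_zero.2 (ev_ne y.1 y.2))

lemma τ_alg (f : ℤ[X]) : τ (algebraMap ℤ[X] A f) = ev f :=
  IsLocalization.lift_eq _ f

/-- the residue map `A → ZMod 3` -/
noncomputable def ρA : A →+* ZMod 3 :=
  IsLocalization.lift (M := P.primeCompl) (g := red)
    (fun y => isUnit_iff_ne_zero.2 (fun h => y.2 h))

lemma ρA_alg (f : ℤ[X]) : ρA (algebraMap ℤ[X] A f) = red f :=
  IsLocalization.lift_eq _ f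

noncomputable def u : A := algebraMap ℤ[X] A X

lemma τ_u : τ u = -θ ^ 2 := by
  unfold u
  rw [τ_alg, ev_apply, aeval_X]

lemma ρA_u : ρA u = 0 := by
  unfold u
  rw [ρA_alg, red_apply]
  simp

instance : CharZero A := RingHom.charZero τ

lemma maxA : maximalIdeal A = Ideal.span {(3 : A), u} := by
  have h := congrArg (Ideal.map (algebraMap ℤ[X] A)) P_eq
  rw [Ideal.map_span, Set.image_insert_eq, Set.image_singleton] at h
  rw [← Localization.AtPrime.map_eq_maximalIdeal (I := P)]
  refine h.trans ?_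
  have e : algebraMap ℤ[X] A (C (3 : ℤ)) = 3 := by
    rw [show (C (3 : ℤ) : ℤ[X]) = 3 from map_ofNat C 3, map_ofNat]
  rw [e]
  rfl

lemma isUnit_iff (a : A) : IsUnit a ↔ ρA a ≠ 0 := by
  constructor
  · intro h
    exact (h.map ρA).ne_zero
  · intro h
    by_contra hc
    have h1 : a ∈ maximalIdeal A := hc
    rw [maxA, Ideal.mem_span_pair] at h1
    obtain ⟨x, y, rfl⟩ := h1
    apply h
    rw [map_add, map_mul, map_mul, ρA_u, map_ofNat]
    have : (OfNat.ofNat 3 : ZMod 3) = 0 := by decide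
    rw [this]
    ring

instance regA : IsRegularLocalRing A := inferInstance


/-! ### the ring `B` -/

noncomputable def pol : A[X] := X ^ 3 - (C (u ^ 2) * X ^ 2 + C (3 * u) * X + C 3)

lemma pol_monic : pol.Monic := by
  unfold pol
  apply monic_X_pow_sub
  exact lt_of_le_of_lt degree_quadratic_le (by norm_num)

abbrev B : Type := AdjoinRoot pol

noncomputable def Y : B := AdjoinRoot.root pol
noncomputable def U : B := algebraMap A B u

lemma relY : Y ^ 3 - (U ^ 2 * Y ^ 2 + 3 * U * Y + 3) = 0 := by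
  have h : AdjoinRoot.mk pol (X ^ 3 - (C (u ^ 2) * X ^ 2 + C (3 * u) * X + C 3)) = 0 :=
    AdjoinRoot.mk_self
  simp only [map_sub, map_add, map_mul, map_pow, AdjoinRoot.mk_X, AdjoinRoot.mk_C,
    map_ofNat] at h
  exact h

noncomputable def ψ : B →+* ℂ := AdjoinRoot.lift τ θ (by
  unfold pol
  simp only [eval₂_sub, eval₂_add, eval₂_mul, eval₂_pow, eval₂_X, eval₂_C]
  rw [map_pow, map_mul, map_ofNat, τ_u]
  have h := theta_cube
  linear_combination (1 - θ ^ 3) * h)

lemma ψ_alg (a : A) : ψ (algebraMap A B a) = τ a := AdjoinRoot.lift_of _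
lemma ψ_Y : ψ Y = θ := AdjoinRoot.lift_root _

noncomputable def ρ : B →+* ZMod 3 := AdjoinRoot.lift ρA 0 (by
  unfold pol
  simp only [eval₂_sub, eval₂_add, eval₂_mul, eval₂_pow, eval₂_X, eval₂_C]
  rw [map_pow, map_mul, map_ofNat, ρA_u]
  have : (OfNat.ofNat 3 : ZMod 3) = 0 := by decide
  rw [this]
  ring)

lemma ρ_alg (a : A) : ρ (algebraMap A B a) = ρA a := AdjoinRoot.lift_of _
lemma ρ_Y : ρ Y = 0 := AdjoinRoot.lift_root _

instance : CharZero B := RingHom.charZero ψ
instance : Nontrivial B := ψ.domain_nontrivial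

/-- every element of `B` is a constant plus a multiple of `Y` -/
lemma decomp (b : B) : ∃ (a : A) (c : B), b = algebraMap A B a + Y * c := by
  obtain ⟨p, rfl⟩ := AdjoinRoot.mk_surjective b
  refine ⟨p.coeff 0, AdjoinRoot.mk pol (divX p), ?_⟩
  conv_lhs => rw [← X_mul_divX_add p]
  rw [map_add, map_mul, AdjoinRoot.mk_X, add_comm]
  rfl

lemma finB : Module.Finite A B := pol_monic.finite_adjoinRoot
instance : Module.Finite A B := finB
instance : Module.Free A B := pol_monic.free_adjoinRoot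

lemma injB : Function.Injective (algebraMap A B) := FaithfulSMul.algebraMap_injective A B

lemma three_mem (I : Ideal B) (hY : Y ∈ I) : (3 : B) ∈ I := by
  have h := relY
  have e : (3 : B) = Y * (Y ^ 2 - U ^ 2 * Y - 3 * U) := by linear_combination -h
  rw [e]
  exact Ideal.mul_mem_right _ _ hY

lemma mem_ker_ρ (b : B) (hb : ρ b = 0) : b ∈ Ideal.span {U, Y} := by
  obtain ⟨a, c, rfl⟩ := decomp b
  rw [map_add, map_mul, ρ_Y, zero_mul, add_zero, ρ_alg] at hb
  have ha : a ∈ maximalIdeal A := by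
    intro hu
    exact (isUnit_iff a).1 hu hb
  rw [maxA, Ideal.mem_span_pair] at ha
  obtain ⟨x, y, rfl⟩ := ha
  have hY : Y ∈ Ideal.span {U, Y} := Ideal.subset_span (by simp)
  have hU : U ∈ Ideal.span {U, Y} := Ideal.subset_span (by simp)
  rw [map_add, map_mul, map_mul]
  refine Ideal.add_mem _ (Ideal.add_mem _ ?_ ?_) (Ideal.mul_mem_right _ _ hY)
  · refine Ideal.mul_mem_left _ _ ?_
    rw [map_ofNat]
    exact three_mem _ hY
  · exact Ideal.mul_mem_left _ _ hU

lemma ker_ρ : RingHom.ker ρ = Ideal.span {U, Y} := by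
  apply le_antisymm
  · intro b hb
    exact mem_ker_ρ b hb
  · rw [Ideal.span_le]
    rintro x (rfl | rfl)
    · show ρ (algebraMap A B u) = 0
      rw [ρ_alg, ρA_u]
    · exact ρ_Y

lemma ρ_surj : Function.Surjective ρ := by
  intro x
  obtain ⟨n, hn⟩ := ZMod.intCast_surjective x
  exact ⟨(n : B), by rw [map_intCast, hn]⟩

lemma locB : IsLocalRing B := by
  apply IsLocalRing.of_unique_max_ideal
  refine ⟨RingHom.ker ρ, RingHom.ker_isMaximal_of_surjective ρ ρ_surj, ?_⟩
  intro M hM
  have hM' : M.IsMaximal := hM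
  have hc : (M.comap (algebraMap A B)).IsMaximal :=
    Ideal.isMaximal_comap_of_isIntegral_of_isMaximal M
  have hc2 : M.comap (algebraMap A B) = maximalIdeal A := eq_maximalIdeal hc
  have h3 : (3 : B) ∈ M := by
    have : (3 : A) ∈ M.comap (algebraMap A B) := by
      rw [hc2, maxA]
      exact Ideal.subset_span (by simp)
    rw [Ideal.mem_comap, map_ofNat] at this
    exact this
  have hU : U ∈ M := by
    have : u ∈ M.comap (algebraMap A B) := by
      rw [hc2, maxA]
      exact Ideal.subset_span (by simp)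
    exact this
  have hY3 : Y ^ 3 ∈ M := by
    have e : Y ^ 3 = U * (U * Y ^ 2 + 3 * Y) + 3 := by linear_combination relY
    rw [e]
    exact Ideal.add_mem _ (Ideal.mul_mem_right _ _ hU) h3
  have hY : Y ∈ M := hM'.isPrime.mem_of_pow_mem 3 hY3
  have hle : RingHom.ker ρ ≤ M := by
    rw [ker_ρ, Ideal.span_le]
    rintro x (rfl | rfl)
    · exact hU
    · exact hY
  exact ((RingHom.ker_isMaximal_of_surjective ρ ρ_surj).eq_of_le hM'.ne_top hle).symm

instance : IsLocalRing B := locB

instance : IsNoetherianRing B := IsNoetherianRing.of_finite A B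


lemma maxB : maximalIdeal B = Ideal.span {U, Y} := by
  rw [← ker_ρ]
  exact (eq_maximalIdeal (RingHom.ker_isMaximal_of_surjective ρ ρ_surj)).symm

/-! ### the element `T` with `T³ = u³ + 9` -/

noncomputable def T : B := Y ^ 2 - U ^ 2 * Y - 2 * U

lemma T_cube : T ^ 3 = U ^ 3 + 9 := by
  unfold T
  linear_combination (Y ^ 3 - 2 * U ^ 2 * Y ^ 2 + (U ^ 4 - 3 * U) * Y + 3 * U ^ 3 + 3) * relY

lemma ψ_U : ψ U = -θ ^ 2 := by
  unfold U
  rw [ψ_alg, τ_u]

lemma ψ_T : ψ T = 0 := by
  unfold T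
  rw [map_sub, map_sub, map_mul, map_mul, map_pow, map_pow, ψ_U, ψ_Y, map_ofNat]
  linear_combination (-θ ^ 2) * theta_cube

lemma ρ_U : ρ U = 0 := by
  unfold U
  rw [ρ_alg, ρA_u]

lemma ρ_T : ρ T = 0 := by
  unfold T
  rw [map_sub, map_sub, map_mul, map_mul, map_pow, map_pow, ρ_U, ρ_Y, map_ofNat]
  ring

lemma unit_two : IsUnit (2 : B) := by
  have h : IsUnit (2 : A) := by
    rw [isUnit_iff, map_ofNat]
    decide
  have := h.map (algebraMap A B)
  rwa [map_ofNat] at this

/-- `U` lies in the ideal generated by `T` and `Y` -/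
lemma U_mem : U ∈ Ideal.span {T, Y} := by
  obtain ⟨v, hv⟩ := unit_two
  have h1 : (2 : B) * U = -1 * T + (Y - U ^ 2) * Y := by
    unfold T
    ring
  have h2 : (2 : B) * U ∈ Ideal.span {T, Y} := by
    rw [h1]
    exact Ideal.add_mem _ (Ideal.mul_mem_left _ _ (Ideal.subset_span (by simp)))
      (Ideal.mul_mem_left _ _ (Ideal.subset_span (by simp)))
  have h3 : U = ((v⁻¹ : Bˣ) : B) * ((2 : B) * U) := by
    rw [← hv, ← mul_assoc, Units.inv_mul, one_mul]
  rw [h3]
  exact Ideal.mul_mem_left _ _ h2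

lemma ker_ψ : RingHom.ker ψ = Ideal.span {T} := by
  apply le_antisymm
  · apply Submodule.le_of_le_smul_of_le_jacobson_bot (I := Ideal.span {Y})
    · exact IsNoetherian.noetherian _
    · rw [IsLocalRing.jacobson_eq_maximalIdeal _ bot_ne_top, maxB]
      exact Ideal.span_mono (by simp)
    · intro b hb
      have hb' : ψ b = 0 := hb
      have hb2 : b ∈ maximalIdeal B := by
        intro hu
        exact (hu.map ψ).ne_zero hb'
      rw [maxB, Ideal.mem_span_pair] at hb2
      obtain ⟨x, y, e⟩ := hb2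
      have hU := U_mem
      rw [Ideal.mem_span_pair] at hU
      obtain ⟨c, d, hcd⟩ := hU
      have e2 : b = T * (x * c) + Y * (x * d + y) := by
        rw [← e, ← hcd]
        ring
      have h4 : ψ (x * d + y) = 0 := by
        have h5 := congrArg ψ e2
        rw [hb', map_add, map_mul ψ T, map_mul ψ Y, ψ_T, ψ_Y, zero_mul, zero_add] at h5
        rcases mul_eq_zero.1 h5.symm with h | h
        · exact absurd h theta_ne
        · exact h
      rw [e2]
      refine Submodule.add_mem_sup ?_ ?_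
      · exact Ideal.mul_mem_right _ _ (Ideal.subset_span (by simp))
      · exact Submodule.smul_mem_smul (Ideal.subset_span (by simp)) h4
  · rw [Ideal.span_le]
    rintro x rfl
    exact ψ_T

instance primeT : (Ideal.span {T}).IsPrime := by
  rw [← ker_ψ]
  exact RingHom.ker_isPrime ψ

/-! ### the quotient `B / (T)` is a discrete valuation ring -/

abbrev Q : Type := B ⧸ (Ideal.span {T})

instance : IsLocalRing Q :=
  IsLocalRing.of_surjective' (Ideal.Quotient.mk (Ideal.span {T})) Ideal.Quotient.mk_surjective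

lemma maxQ : maximalIdeal Q = Ideal.span {Ideal.Quotient.mk (Ideal.span {T}) Y} := by
  apply le_antisymm
  · intro x hx
    obtain ⟨b, rfl⟩ := Ideal.Quotient.mk_surjective x
    have hb : b ∈ maximalIdeal B := by
      intro hu
      exact hx (hu.map _)
    rw [maxB, Ideal.mem_span_pair] at hb
    obtain ⟨x, y, rfl⟩ := hb
    have hU := U_mem
    rw [Ideal.mem_span_pair] at hU
    obtain ⟨c, d, hcd⟩ := hU
    rw [← hcd, map_add, map_mul, map_mul, map_add, map_mul, map_mul]
    have hT : Ideal.Quotient.mk (Ideal.span {T}) T = 0 :=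
      Ideal.Quotient.eq_zero_iff_mem.2 (Ideal.subset_span (by simp))
    rw [hT, mul_zero, zero_add]
    rw [Ideal.mem_span_singleton']
    refine ⟨Ideal.Quotient.mk _ x * Ideal.Quotient.mk _ d + Ideal.Quotient.mk _ y, ?_⟩
    ring
  · rw [Ideal.span_le]
    rintro x rfl
    intro hu
    obtain ⟨c, hc⟩ := hu.exists_right_inv
    obtain ⟨b, rfl⟩ := Ideal.Quotient.mk_surjective c
    rw [← map_mul, ← map_one (Ideal.Quotient.mk (Ideal.span {T})), Ideal.Quotient.eq,
      Ideal.mem_span_singleton'] at hc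
    obtain ⟨a, ha⟩ := hc
    have := congrArg ρ ha
    rw [map_mul, ρ_T, mul_zero, map_sub, map_mul, ρ_Y, zero_mul, zero_sub, map_one] at this
    exact absurd this (by decide)

lemma pidQ : IsPrincipalIdealRing Q := by
  have h := (tfae_of_isNoetherianRing_of_isLocalRing_of_isDomain Q).out 4 0
  apply h.1
  rw [maxQ]
  exact ⟨⟨_, rfl⟩⟩

instance : IsPrincipalIdealRing Q := pidQ

instance regQ : IsRegularLocalRing Q := inferInstance

lemma notFieldQ : ¬ IsField Q := by
  rw [isField_iff_maximalIdeal_eq, maxQ, Ideal.span_singleton_eq_bot]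
  intro h
  have h2 : Y ∈ RingHom.ker ψ := by
    rw [ker_ψ]
    exact Ideal.Quotient.eq_zero_iff_mem.1 h
  have h3 : ψ Y = 0 := h2
  rw [ψ_Y] at h3
  exact theta_ne h3

lemma dimQ : ringKrullDim Q = 1 := IsPrincipalIdealRing.ringKrullDim_eq_one Q notFieldQ

/-! ### `B` is regular of dimension 2 -/

lemma T_nzd : T ∈ nonZeroDivisors B := by
  have h1 : algebraMap A B (u ^ 3 + 9) ∈ nonZeroDivisors B := by
    rw [mem_nonZeroDivisors_iff_right]
    intro x hx
    have h2 : (u ^ 3 + 9 : A) • x = 0 := by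
      rw [Algebra.smul_def, mul_comm]
      exact hx
    have h3 : (u ^ 3 + 9 : A) ≠ 0 := by
      intro h
      have h5 : algebraMap ℤ[X] A (X ^ 3 + 9) = 0 := by
        have e : algebraMap ℤ[X] A (X ^ 3 + 9) = u ^ 3 + 9 := by
          rw [map_add, map_pow, map_ofNat]
          rfl
        rw [e, h]
      have h6 : (X ^ 3 + 9 : ℤ[X]) = 0 :=
        IsLocalization.injective A P.primeCompl_le_nonZeroDivisors (by rw [h5, map_zero])
      have h7 := congrArg (Polynomial.eval 0) h6
      simp at h7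
    exact (smul_eq_zero.1 h2).resolve_left h3
  have h8 : T * (T * T) ∈ nonZeroDivisors B := by
    have e : T * (T * T) = algebraMap A B (u ^ 3 + 9) := by
      rw [map_add, map_pow, map_ofNat]
      have := T_cube
      show T * (T * T) = U ^ 3 + 9
      rw [← this]
      ring
    rw [e]
    exact h1
  exact (mul_mem_nonZeroDivisors.1 h8).1

lemma dimB : (2 : WithBot ℕ∞) ≤ ringKrullDim B := by
  have h := ringKrullDim_quotient_succ_le_of_nonZeroDivisor T_nzd
  have h2 : ringKrullDim (B ⧸ Ideal.span {T}) = 1 := dimQ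
  rw [h2] at h
  exact le_trans (by norm_num) h

instance regB : IsRegularLocalRing B := by
  apply IsRegularLocalRing.of_spanFinrank_maximalIdeal_le
  refine le_trans ?_ dimB
  rw [maxB]
  have h1 : (Ideal.span {U, Y}).spanFinrank ≤ ({U, Y} : Set B).ncard :=
    Submodule.spanFinrank_span_le_ncard_of_finite (Set.toFinite _)
  have h2 : ({U, Y} : Set B).ncard ≤ 2 := by
    refine (Set.ncard_insert_le _ _).trans ?_
    rw [Set.ncard_singleton]
  exact_mod_cast h1.trans h2


/-! ### the prime `𝔭` of `A` -/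

noncomputable def p : Ideal A := RingHom.ker τ

instance : p.IsPrime := RingHom.ker_isPrime τ

lemma phi_mem : (u ^ 3 + 9 : A) ∈ p := by
  show τ (u ^ 3 + 9) = 0
  rw [map_add, map_pow, τ_u, map_ofNat]
  linear_combination (-θ ^ 3 - 3) * theta_cube

lemma rad_eq : (p.map (algebraMap A B)).radical = Ideal.span {T} := by
  apply le_antisymm
  · rw [Ideal.IsPrime.radical_le_iff primeT, Ideal.map_le_iff_le_comap]
    intro a ha
    rw [Ideal.mem_comap, ← ker_ψ]
    show ψ (algebraMap A B a) = 0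
    rw [ψ_alg]
    exact ha
  · rw [Ideal.span_le]
    rintro x rfl
    refine ⟨3, ?_⟩
    have e : T ^ 3 = algebraMap A B (u ^ 3 + 9) := by
      rw [map_add, map_pow, map_ofNat]
      exact T_cube
    rw [e]
    exact Ideal.mem_map_of_mem _ phi_mem

lemma regQuot : IsRegularLocalRing (B ⧸ (p.map (algebraMap A B)).radical) := by
  rw [rad_eq]
  exact regQ

abbrev R : Type := A ⧸ p

noncomputable def τbar : R →+* ℂ := Ideal.Quotient.lift p τ (fun _ h => h)

lemma τbar_mk (a : A) : τbar (Ideal.Quotient.mk p a) = τ a := Ideal.Quotient.lift_mk _ _ _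

lemma τbar_inj : Function.Injective τbar := by
  rw [injective_iff_map_eq_zero]
  intro x hx
  obtain ⟨a, rfl⟩ := Ideal.Quotient.mk_surjective x
  rw [τbar_mk] at hx
  exact Ideal.Quotient.eq_zero_iff_mem.2 hx

lemma charZeroR : CharZero R := RingHom.charZero τbar

instance : IsLocalRing R :=
  IsLocalRing.of_surjective' (Ideal.Quotient.mk p) Ideal.Quotient.mk_surjective

lemma maxR : maximalIdeal R = Ideal.span {(3 : R), Ideal.Quotient.mk p u} := by
  apply le_antisymm
  · intro x hx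
    obtain ⟨b, rfl⟩ := Ideal.Quotient.mk_surjective x
    have hb : b ∈ maximalIdeal A := by
      intro hu
      exact hx (hu.map _)
    rw [maxA, Ideal.mem_span_pair] at hb
    obtain ⟨x, y, rfl⟩ := hb
    rw [map_add, map_mul, map_mul, map_ofNat]
    exact Ideal.mem_span_pair.2 ⟨_, _, rfl⟩
  · rw [Ideal.span_le]
    have hp : p ≤ maximalIdeal A := le_maximalIdeal (Ideal.IsPrime.ne_top inferInstance)
    have key : ∀ a ∈ maximalIdeal A, Ideal.Quotient.mk p a ∈ maximalIdeal R := by
      intro a ha hu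
      obtain ⟨c, hc⟩ := hu.exists_right_inv
      obtain ⟨b, rfl⟩ := Ideal.Quotient.mk_surjective c
      rw [← map_mul, ← map_one (Ideal.Quotient.mk p), Ideal.Quotient.eq] at hc
      have h1 : a * b - 1 ∈ maximalIdeal A := hp hc
      have h2 : a * b ∈ maximalIdeal A := Ideal.mul_mem_right _ _ ha
      have h3 : (1 : A) ∈ maximalIdeal A := by
        have := Ideal.sub_mem _ h2 h1
        rwa [sub_sub_cancel] at this
      exact h3 isUnit_one
    rintro x (rfl | rfl)
    · have := key 3 (by rw [maxA]; exact Ideal.subset_span (by simp))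
      rwa [map_ofNat] at this
    · exact key u (by rw [maxA]; exact Ideal.subset_span (by simp))

lemma dimA : ringKrullDim A ≤ 2 := by
  refine (ringKrullDim_le_spanFinrank_maximalIdeal A).trans ?_
  rw [maxA]
  have h1 : (Ideal.span {(3 : A), u}).spanFinrank ≤ ({(3 : A), u} : Set A).ncard :=
    Submodule.spanFinrank_span_le_ncard_of_finite (Set.toFinite _)
  have h2 : ({(3 : A), u} : Set A).ncard ≤ 2 := by
    refine (Set.ncard_insert_le _ _).trans ?_
    rw [Set.ncard_singleton]
  exact_mod_cast h1.trans h2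

lemma phi_ne : (u ^ 3 + 9 : A) ≠ 0 := by
  intro h
  have h5 : algebraMap ℤ[X] A (X ^ 3 + 9) = 0 := by
    have e : algebraMap ℤ[X] A (X ^ 3 + 9) = u ^ 3 + 9 := by
      rw [map_add, map_pow, map_ofNat]
      rfl
    rw [e, h]
  have h6 : (X ^ 3 + 9 : ℤ[X]) = 0 :=
    IsLocalization.injective A P.primeCompl_le_nonZeroDivisors (by rw [h5, map_zero])
  have h7 := congrArg (Polynomial.eval 0) h6
  simp at h7

lemma dimR : ringKrullDim R + 1 ≤ 2 := by
  have h0 : (Ideal.Quotient.mk p) (u ^ 3 + 9) = 0 := Ideal.Quotient.eq_zero_iff_mem.2 phi_mem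
  have h := ringKrullDim_succ_le_of_surjective (R := A) (S := R) (Ideal.Quotient.mk p)
    Ideal.Quotient.mk_surjective (r := u ^ 3 + 9) (mem_nonZeroDivisors_of_ne_zero phi_ne) h0
  exact h.trans dimA

lemma not_unit_rep (r : R) : ∃ f g : ℤ[X], g ∉ P ∧ ev g * τbar r = ev f := by
  obtain ⟨a, rfl⟩ := Ideal.Quotient.mk_surjective r
  obtain ⟨f, g, rfl⟩ := IsLocalization.exists_mk'_eq P.primeCompl a
  refine ⟨f, g, g.2, ?_⟩
  rw [τbar_mk, ← τ_alg, ← τ_alg, ← map_mul]
  congr 1
  exact IsLocalization.mk'_spec' A f g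

lemma no_case1 (r : R) : Ideal.Quotient.mk p u ≠ 3 * r := by
  intro h
  obtain ⟨f, g, hg, e⟩ := not_unit_rep r
  have h1 := congrArg τbar h
  rw [τbar_mk, τ_u, map_mul, map_ofNat] at h1
  -- -θ² = 3 τbar r
  have h2 : θ ^ 2 * (ev g + θ * ev f) = 0 := by
    have h3 := theta_cube
    linear_combination (-ev g) * h1 - 3 * e + ev f * h3
  have h4 : ev g + θ * ev f = 0 := by
    rcases mul_eq_zero.1 h2 with h | h
    · exact absurd (pow_eq_zero_iff (by norm_num) |>.1 h) theta_ne
    · exact h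
  have h5 : aeval θ (sb g + X * sb f) = 0 := by
    rw [map_add, map_mul, aeval_X, sb_aeval, sb_aeval]
    exact h4
  have h6 := (coeff_dvd _ h5).1
  rw [coeff_add, sb_coeff_zero, coeff_X_mul_zero, add_zero] at h6
  exact hg ((mem_P g).2 h6)

lemma no_case2 (r : R) : (3 : R) ≠ Ideal.Quotient.mk p u * r := by
  intro h
  obtain ⟨f, g, hg, e⟩ := not_unit_rep r
  have h1 := congrArg τbar h
  rw [map_mul, τbar_mk, τ_u, map_ofNat] at h1
  -- 3 = -θ² τbar r
  have h2 : θ ^ 2 * (ev f + θ * ev g) = 0 := by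
    have h3 := theta_cube
    linear_combination ev g * h3 + ev g * h1 - θ ^ 2 * e
  have h4 : ev f + θ * ev g = 0 := by
    rcases mul_eq_zero.1 h2 with h | h
    · exact absurd (pow_eq_zero_iff (by norm_num) |>.1 h) theta_ne
    · exact h
  have h5 : aeval θ (sb f + X * sb g) = 0 := by
    rw [map_add, map_mul, aeval_X, sb_aeval, sb_aeval]
    exact h4
  have h6 := (coeff_dvd _ h5).2
  rw [coeff_add, sb_coeff_one, coeff_X_mul, zero_add, sb_coeff_zero] at h6
  exact hg ((mem_P g).2 h6)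

lemma notRegR : ¬ IsRegularLocalRing R := by
  intro hreg
  have h1 := hreg.spanFinrank_maximalIdeal
  have h2 := dimR
  rw [← h1] at h2
  have h3 : (maximalIdeal R).spanFinrank ≤ 1 := by
    have : (((maximalIdeal R).spanFinrank + 1 : ℕ) : WithBot ℕ∞) ≤ ((2 : ℕ) : WithBot ℕ∞) := by
      push_cast
      exact h2
    have := Nat.cast_le.1 this
    omega
  have h3ne : (3 : R) ≠ 0 := by
    intro h
    have := congrArg τbar h
    rw [map_ofNat, map_zero] at this
    norm_num at this
  have hmem3 : (3 : R) ∈ maximalIdeal R := by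
    rw [maxR]; exact Ideal.subset_span (by simp)
  have hmemu : Ideal.Quotient.mk p u ∈ maximalIdeal R := by
    rw [maxR]; exact Ideal.subset_span (by simp)
  have hbot : maximalIdeal R ≠ ⊥ := by
    intro h
    rw [h] at hmem3
    exact h3ne hmem3
  have hfg : (maximalIdeal R).FG := IsNoetherian.noetherian _
  have h4 : (maximalIdeal R).spanFinrank ≠ 0 := by
    intro h
    exact hbot ((Submodule.spanFinrank_eq_zero_iff_eq_bot hfg).1 h)
  have h5 : (maximalIdeal R).spanFinrank = 1 := by omega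
  obtain ⟨⟨t, ht⟩⟩ := ((Submodule.spanFinrank_eq_one_iff _).1 h5).1
  have ht' : maximalIdeal R = Ideal.span {t} := ht
  rw [ht', Ideal.mem_span_singleton'] at hmem3 hmemu
  obtain ⟨c, hc⟩ := hmem3
  obtain ⟨d, hd⟩ := hmemu
  have htm : t ∈ maximalIdeal R := by
    rw [ht']; exact Ideal.subset_span (by simp)
  rw [maxR, Ideal.mem_span_pair] at htm
  obtain ⟨a, b, hab⟩ := htm
  have ht0 : t ≠ 0 := by
    intro h
    rw [h, mul_zero] at hc
    exact h3ne hc.symm
  have h6 : t * (a * c + b * d - 1) = 0 := by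
    linear_combination hab + a * hc + b * hd
  have h7 : a * c + b * d = 1 := by
    rcases mul_eq_zero.1 h6 with h | h
    · exact absurd h ht0
    · linear_combination h
  rcases IsLocalRing.isUnit_or_isUnit_of_add_one h7 with h | h
  · have hcu : IsUnit c := isUnit_of_mul_isUnit_right h
    obtain ⟨v, hv⟩ := hcu
    apply no_case1 (((v⁻¹ : Rˣ) : R) * d)
    have : c * ((v⁻¹ : Rˣ) : R) = 1 := by rw [← hv, Units.mul_inv]
    rw [← hd]
    linear_combination (d * ((v⁻¹ : Rˣ) : R)) * hc - (d * t) * this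
  · have hdu : IsUnit d := isUnit_of_mul_isUnit_right h
    obtain ⟨v, hv⟩ := hdu
    apply no_case2 (((v⁻¹ : Rˣ) : R) * c)
    have : d * ((v⁻¹ : Rˣ) : R) = 1 := by rw [← hv, Units.mul_inv]
    rw [← hc]
    linear_combination (c * ((v⁻¹ : Rˣ) : R)) * hd - (c * t) * this

theorem main : ∃ (A B : Type) (_ : CommRing A) (_ : CommRing B) (_ : Algebra A B)
    (𝔭 : Ideal A), IsRegularLocalRing A ∧ IsRegularLocalRing B ∧ CharZero A ∧ CharZero B ∧
      Function.Injective (algebraMap A B) ∧ Module.Finite A B ∧ 𝔭.IsPrime ∧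
      CharZero (A ⧸ 𝔭) ∧
      IsRegularLocalRing (B ⧸ (𝔭.map (algebraMap A B)).radical) ∧
      ¬ IsRegularLocalRing (A ⧸ 𝔭) :=
  ⟨A, B, inferInstance, inferInstance, inferInstance, p, regA, regB, inferInstance,
    inferInstance, injB, finB, inferInstance, charZeroR, regQuot, notRegR⟩

end Pool.Agent.MPf322fd
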